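import Pool.Agent.Y328.CC.Act2

/-!
# Failure of the Cancellation Law is inherited along equivariant surjections

(helper293, job CC-PULL of helper328.)
-/

set_option autoImplicit false

open scoped Pointwise
open Set Function MeasureTheory

universe u v w

namespace Pool.Agent.Y293.CC

open Pool.Agent.Y328.CC

section

variable {G : Type u} {X : Type v} {Z : Type w} [AddGroup G] [AddAction G X] [AddAction G Z]
  {φ : X → Z}

/-- preimages of translates -/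
theorem pre_vadd (he : ∀ (g : G) (x : X), φ (g +ᵥ x) = g +ᵥ φ x) (g : G) (E : Set Z) :
    φ ⁻¹' (g +ᵥ E) = g +ᵥ φ ⁻¹' E := by
  ext x
  rw [mem_preimage, mem_v, mem_v, mem_preimage, he]

theorem pre_prod {n : ℕ} (S : Set Z) (t : Set (Fin n)) :
    (φ ⁻¹' S) ×ˢ t = Prod.map φ id ⁻¹' (S ×ˢ t) := rfl

end

theorem t_PULL : Pool.Agent.Y328.CC.S_PULL.{u, v, w} := by
  intro G X Z _ _ _ φ hφ he n h
  obtain ⟨𝒜, h𝒜, hinv, A, hA, B, hB, ⟨k, C, g, j, m, h1, h2, h3, h4, h5, h6⟩, hne⟩ := h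
  refine ⟨(fun E => φ ⁻¹' E) '' 𝒜, ⟨⟨∅, h𝒜.empty_mem, rfl⟩, ?_, ?_⟩, ?_,
    φ ⁻¹' A, ⟨A, hA, rfl⟩, φ ⁻¹' B, ⟨B, hB, rfl⟩,
    ⟨k, fun i => φ ⁻¹' C i, g, j, m, fun i => ⟨C i, h1 i, rfl⟩,
      fun i => ⟨g i +ᵥ C i, h2 i, pre_vadd he _ _⟩, ?_, ?_, ?_, ?_⟩, ?_⟩
  · rintro s ⟨E, hE, rfl⟩
    exact ⟨Eᶜ, h𝒜.compl_mem hE, rfl⟩
  · rintro s t ⟨E, hE, rfl⟩ ⟨F, hF, rfl⟩
    exact ⟨E ∪ F, h𝒜.union_mem hE hF, rfl⟩
  · rintro g' s ⟨E, hE, rfl⟩
    exact ⟨g' +ᵥ E, hinv g' E hE, pre_vadd he _ _⟩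
  · intro a b hab
    exact (h3 hab).preimage (Prod.map φ id)
  · have h7 := congrArg (fun S => Prod.map φ id ⁻¹' S) h4
    simp only [preimage_iUnion] at h7
    exact h7
  · intro a b hab
    have h7 := (h5 hab).preimage (Prod.map φ id)
    show Disjoint ((g a +ᵥ φ ⁻¹' C a) ×ˢ ({m a} : Set (Fin n)))
      ((g b +ᵥ φ ⁻¹' C b) ×ˢ ({m b} : Set (Fin n)))
    rw [← pre_vadd he, ← pre_vadd he]
    exact h7
  · have h7 := congrArg (fun S => Prod.map φ id ⁻¹' S) h6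
    simp only [preimage_iUnion] at h7
    rw [← pre_prod (φ := φ) B univ] at h7
    rw [← h7]
    refine iUnion_congr fun i => ?_
    rw [← pre_vadd he, pre_prod]
  · rintro ⟨k', D, g', hD, _, d1, d2, d3, d4⟩
    apply hne
    choose E hE using hD
    have hE2 : ∀ i, φ ⁻¹' E i = D i := fun i => (hE i).2
    refine ⟨k', E, g', fun i => (hE i).1, fun i => hinv _ _ (hE i).1, ?_, ?_, ?_, ?_⟩
    · intro a b hab
      refine Disjoint.of_preimage hφ ?_
      have h7 := d1 hab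
      show Disjoint (φ ⁻¹' E a) (φ ⁻¹' E b)
      rw [hE2, hE2]
      exact h7
    · apply hφ.preimage_injective
      rw [preimage_iUnion, ← d2]
      exact iUnion_congr hE2
    · intro a b hab
      refine Disjoint.of_preimage hφ ?_
      have h7 := d3 hab
      show Disjoint (φ ⁻¹' (g' a +ᵥ E a)) (φ ⁻¹' (g' b +ᵥ E b))
      rw [pre_vadd he, pre_vadd he, hE2, hE2]
      exact h7
    · apply hφ.preimage_injective
      rw [preimage_iUnion, ← d4]
      exact iUnion_congr fun i => by rw [pre_vadd he, hE2]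

end Pool.Agent.Y293.CC
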